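import Pool.Agent.Helper47.GO.A0

set_option autoImplicit false

namespace Pool.Agent.Helper47.GO

open Set Topology Cardinal

theorem tame_st1 {N : ℕ → ℕ → Set Z} (h : Tame N) (n : ℕ) (a : Cnd) (ha : Val a) :
    ∀ᶠ k in Filter.atTop, St1 (N n k) a := by
  obtain ⟨c', hV, hL, hw, j, hj⟩ := h n a ha
  filter_upwards [Filter.eventually_ge_atTop j] with k hk
  exact ⟨c', hV, hL, hw, hj k hk⟩

theorem tame_st2 {N : ℕ → ℕ → Set Z} (h : Tame N) (n : ℕ) (a b : Cnd) :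
    ∀ᶠ k in Filter.atTop, St2 (N n k) a b := by
  classical
  have key : ∀ c : Cnd, ∃ F : Finset (ℕ × ℕ) → Cnd, ∀ s, Val ⟨c.w ∪ s, c.t, c.f⟩ →
      (Val (F s) ∧ Le (F s) ⟨c.w ∪ s, c.t, c.f⟩ ∧ (F s).w = c.w ∪ s ∧
        ∃ j, ∀ k ≥ j, Disjoint (C (F s)) (N n k)) := by
    intro c
    have : ∀ s : Finset (ℕ × ℕ), ∃ c' : Cnd, Val ⟨c.w ∪ s, c.t, c.f⟩ →
        (Val c' ∧ Le c' ⟨c.w ∪ s, c.t, c.f⟩ ∧ c'.w = c.w ∪ s ∧
          ∃ j, ∀ k ≥ j, Disjoint (C c') (N n k)) := by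
      intro s
      by_cases hV : Val ⟨c.w ∪ s, c.t, c.f⟩
      · obtain ⟨c', h1, h2, h3, h4⟩ := h n _ hV
        exact ⟨c', fun _ => ⟨h1, h2, h3, h4⟩⟩
      · exact ⟨c, fun h' => absurd h' hV⟩
    choose F hF using this
    exact ⟨F, hF⟩
  obtain ⟨FA, hFA⟩ := key a
  obtain ⟨FB, hFB⟩ := key b
  have e1 : ∀ᶠ k in Filter.atTop, ∀ s ∈ (Sp b).powerset, Val ⟨a.w ∪ s, a.t, a.f⟩ →
      Disjoint (C (FA s)) (N n k) := by
    rw [Filter.eventually_all_finset]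
    intro s _
    by_cases hV : Val ⟨a.w ∪ s, a.t, a.f⟩
    · obtain ⟨_, _, _, j, hj⟩ := hFA s hV
      filter_upwards [Filter.eventually_ge_atTop j] with k hk _
      exact hj k hk
    · exact Filter.Eventually.of_forall fun k h' => absurd h' hV
  have e2 : ∀ᶠ k in Filter.atTop, ∀ s ∈ (Sp b).powerset, ∀ s' ∈ (Sp (FA s)).powerset,
      Val ⟨b.w ∪ s', b.t, b.f⟩ → Disjoint (C (FB s')) (N n k) := by
    rw [Filter.eventually_all_finset]
    intro s _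
    rw [Filter.eventually_all_finset]
    intro s' _
    by_cases hV : Val ⟨b.w ∪ s', b.t, b.f⟩
    · obtain ⟨_, _, _, j, hj⟩ := hFB s' hV
      filter_upwards [Filter.eventually_ge_atTop j] with k hk _
      exact hj k hk
    · exact Filter.Eventually.of_forall fun k h' => absurd h' hV
  filter_upwards [e1, e2] with k h1 h2
  rintro φ ⟨hVa, hVb, haw, hbw, hst⟩
  set s : Finset (ℕ × ℕ) := (Sp b).filter (fun i => i.2 = φ i.1) with hs
  have hsP : s ∈ (Sp b).powerset := Finset.mem_powerset.2 (Finset.filter_subset _ _)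
  have hSp : ∀ (c : Cnd) (j : (ℕ × ℕ) × ℕ), j ∈ c.t → j.1 ∈ Sp c := fun c j hj =>
    Finset.mem_image.2 ⟨j, hj, rfl⟩
  have hAs : Val ⟨a.w ∪ s, a.t, a.f⟩ := by
    refine ⟨hVa.1, ?_⟩
    intro j hj hjw
    rcases Finset.mem_union.1 hjw with hjw | hjw
    · exact hVa.2 j hj hjw
    · obtain ⟨hb1, hb2⟩ := Finset.mem_filter.1 hjw
      apply hst j.1.1
      have : (j.1.1, φ j.1.1) = j.1 := Prod.ext rfl hb2.symm
      rw [this]
      exact ⟨hSp a j hj, hb1⟩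
  obtain ⟨hV1, hL1, hw1, _⟩ := hFA s hAs
  set s' : Finset (ℕ × ℕ) := (Sp (FA s)).filter (fun i => i.2 = φ i.1) with hs'
  have hsP' : s' ∈ (Sp (FA s)).powerset := Finset.mem_powerset.2 (Finset.filter_subset _ _)
  have hBs : Val ⟨b.w ∪ s', b.t, b.f⟩ := by
    refine ⟨hVb.1, ?_⟩
    intro j hj hjw
    rcases Finset.mem_union.1 hjw with hjw | hjw
    · exact hVb.2 j hj hjw
    · obtain ⟨hb1, hb2⟩ := Finset.mem_filter.1 hjw
      have h3 : j.1 ∈ s := Finset.mem_filter.2 ⟨hSp b j hj, hb2⟩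
      obtain ⟨j', hj', hjj⟩ := Finset.mem_image.1 hb1
      apply hV1.2 j' hj'
      rw [hjj, hw1]
      exact Finset.mem_union_right _ h3
  obtain ⟨hV2, hL2, hw2, _⟩ := hFB s' hBs
  refine ⟨FA s, FB s', ⟨hV1, hV2, ?_, ?_, ?_⟩, ?_, ?_, h1 s hsP hAs, h2 s hsP s' hsP' hBs⟩
  · intro i hi
    rw [hw1] at hi
    rcases Finset.mem_union.1 hi with hi | hi
    · exact haw i hi
    · exact (Finset.mem_filter.1 hi).2
  · intro i hi
    rw [hw2] at hi
    rcases Finset.mem_union.1 hi with hi | hi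
    · exact hbw i hi
    · exact (Finset.mem_filter.1 hi).2
  · rintro m ⟨hm1, hm2⟩
    have h3 : (m, φ m) ∈ s' := Finset.mem_filter.2 ⟨hm1, rfl⟩
    obtain ⟨j', hj', hjj⟩ := Finset.mem_image.1 hm2
    apply hV2.2 j' hj'
    rw [hjj, hw2]
    exact Finset.mem_union_right _ h3
  · exact ⟨fun i hi => hL1.1 (Finset.mem_union_left _ hi), hL1.2.1, hL1.2.2⟩
  · exact ⟨fun i hi => hL2.1 (Finset.mem_union_left _ hi), hL2.2.1, hL2.2.2⟩



theorem exists_g {N : ℕ → ℕ → Set Z} (h : Tame N) (X : Set Z) (hX : X.Countable) :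
    ∃ g, Nice N g ∧ ∀ u ∈ X, OK N u → ∀ᶠ n in Filter.atTop, u ∉ N n (g n) :=
  exists_g_of (fun h => tame_st1 h) (fun h => tame_st2 h) h X hX

end Pool.Agent.Helper47.GO
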