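import Pool.Agent.Helper47.GO.Defs

set_option autoImplicit false

namespace Pool.Agent.Helper47.GO

open Set Topology Cardinal

theorem diag {ι : Type} [Countable ι] (P : ι → ℕ → ℕ → Prop)
    (h : ∀ i n, ∀ᶠ k in Filter.atTop, P i n k) :
    ∃ g : ℕ → ℕ, ∀ i, ∀ᶠ n in Filter.atTop, P i n (g n) := by
  obtain ⟨e, he⟩ := exists_injective_nat ι
  have key : ∀ n, ∃ k, ∀ i, e i ≤ n → P i n k := by
    intro n
    have h1 : {i | e i ≤ n}.Finite := Set.Finite.preimage he.injOn (Set.finite_Iic n)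
    have h2 : ∀ᶠ k in Filter.atTop, ∀ i ∈ {i | e i ≤ n}, P i n k :=
      (Filter.eventually_all_finite h1).2 fun i _ => h i n
    obtain ⟨k, hk⟩ := h2.exists
    exact ⟨k, fun i hi => hk i hi⟩
  choose g hg using key
  exact ⟨g, fun i => Filter.eventually_atTop.2 ⟨e i, fun n hn => hg n i hn⟩⟩

/-- a generic sequence -/
theorem exists_seq {α ι : Type} [Countable ι] (V : α → Prop) (le : α → α → Prop)
    (hrefl : ∀ a, le a a) (htrans : ∀ a b c, le a b → le b c → le a c)
    (D : ι → α → Prop) (hD : ∀ i a, V a → ∃ b, V b ∧ le b a ∧ D i b) (a₀ : α) (ha₀ : V a₀) :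
    ∃ s : ℕ → α, s 0 = a₀ ∧ (∀ n, V (s n)) ∧ (∀ m n, m ≤ n → le (s n) (s m)) ∧
      ∀ i, ∃ n, D i (s n) := by
  classical
  rcases isEmpty_or_nonempty ι with hι | hι
  · exact ⟨fun _ => a₀, rfl, fun _ => ha₀, fun _ _ _ => hrefl _, fun i => (hι.false i).elim⟩
  obtain ⟨e, he⟩ := exists_surjective_nat ι
  choose! F hF using hD
  let s : ℕ → α := fun n => Nat.rec a₀ (fun n a => F (e n) a) n
  have hV : ∀ n, V (s n) := by
    intro n
    induction n with
    | zero => exact ha₀
    | succ n ih => exact (hF _ _ ih).1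
  refine ⟨s, rfl, hV, ?_, ?_⟩
  · intro m n hmn
    induction hmn with
    | refl => exact hrefl _
    | step _ ih => exact htrans _ _ _ (hF _ _ (hV _)).2.1 ih
  · intro i
    obtain ⟨n, rfl⟩ := he i
    exact ⟨n+1, (hF _ _ (hV n)).2.2⟩

/-- the point given by a decreasing sequence of conditions -/
theorem exists_point (s : ℕ → Cnd) (hs : ∀ n, Val (s n)) (hle : ∀ m n, m ≤ n → Le (s n) (s m)) :
    ∃ x : Z, (∀ n, x ∈ C (s n)) ∧ ∀ i, (∃ n, i ∈ Sp (s n)) → i ∉ W x := by
  classical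
  refine ⟨fun j => decide (∃ n, j ∈ (s n).t), fun n => ⟨?_, ?_, ?_⟩, ?_⟩
  · intro j hj
    exact decide_eq_true ⟨n, hj⟩
  · intro j hj
    apply decide_eq_false
    rintro ⟨m, hm⟩
    have h1 := (hle n (max n m) (le_max_left _ _)).2.2 hj
    have h2 := (hle m (max n m) (le_max_right _ _)).2.1 hm
    exact Finset.disjoint_left.1 (hs (max n m)).1 h2 h1
  · intro i hi l
    apply decide_eq_false
    rintro ⟨m, hm⟩
    have h1 := (hle n (max n m) (le_max_left _ _)).1 hi
    have h2 := (hle m (max n m) (le_max_right _ _)).2.1 hm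
    exact (hs (max n m)).2 _ h2 h1
  · rintro i ⟨n, hn⟩ hW
    obtain ⟨j, hj, rfl⟩ := Finset.mem_image.1 hn
    have := hW j.2
    have h2 : decide (∃ n, j ∈ (s n).t) = true := decide_eq_true ⟨n, hj⟩
    simp only [Prod.mk.eta] at this
    rw [h2] at this
    exact Bool.noConfusion this

theorem countable_Iio (α : Om) : (Iio α).Countable := by
  have h : #(Iio α) < ℵ₁ := mk_Iio_toType_ord_lt α
  have h3 : ∀ c : Cardinal.{0}, c < ℵ₁ → c ≤ ℵ₀ := fun c hc => by
    rwa [← succ_aleph0, Order.lt_succ_iff] at hc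
  rw [← Set.countable_coe_iff, ← mk_le_aleph0_iff]
  exact h3 _ h

theorem exists_rec {V : Type} (Q : ∀ α : Om, (Iio α → V) → V → Prop)
    (h : ∀ α G, ∃ y, Q α G y) : ∃ F : Om → V, ∀ α, Q α (fun β => F β) (F α) := by
  choose y hy using h
  let F : Om → V := (wellFounded_lt (α := Om)).fix fun α G => y α fun β => G β.1 β.2
  refine ⟨F, fun α => ?_⟩
  have : F α = y α fun β => F β := WellFounded.fix_eq _ _ _
  rw [this]
  exact hy _ _

instance : Countable Cnd := by
  have : Function.Injective (fun c : Cnd => (c.w, c.t, c.f)) := by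
    intro a b h
    simp only [Prod.mk.injEq] at h
    exact Cnd.ext h.1 h.2.1 h.2.2
  exact this.countable

theorem exists_g_of
    (tame_st1 : ∀ {N : ℕ → ℕ → Set Z} (_ : Tame N) (n : ℕ) (a : Cnd) (_ : Val a),
      ∀ᶠ k in Filter.atTop, St1 (N n k) a)
    (tame_st2 : ∀ {N : ℕ → ℕ → Set Z} (_ : Tame N) (n : ℕ) (a b : Cnd),
      ∀ᶠ k in Filter.atTop, St2 (N n k) a b)
    {N : ℕ → ℕ → Set Z} (h : Tame N) (X : Set Z) (hX : X.Countable) :
    ∃ g, Nice N g ∧ ∀ u ∈ X, OK N u → ∀ᶠ n in Filter.atTop, u ∉ N n (g n) := by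
  haveI : Countable X := hX.to_subtype
  let P : (Cnd ⊕ (Cnd × Cnd)) ⊕ X → ℕ → ℕ → Prop := fun i n k =>
    match i with
    | .inl (.inl a) => Val a → St1 (N n k) a
    | .inl (.inr ab) => St2 (N n k) ab.1 ab.2
    | .inr u => OK N u → (u : Z) ∉ N n k
  have hP : ∀ i n, ∀ᶠ k in Filter.atTop, P i n k := by
    intro i n
    rcases i with (a | ab) | u
    · by_cases ha : Val a
      · filter_upwards [tame_st1 h n a ha] with k hk _ using hk
      · exact Filter.Eventually.of_forall fun k h => absurd h ha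
    · exact tame_st2 h n ab.1 ab.2
    · by_cases hu : OK N u
      · have h1 := (hu n).bddAbove
        obtain ⟨B, hB⟩ := h1
        refine Filter.eventually_atTop.2 ⟨B + 1, fun k hk _ hmem => ?_⟩
        have := hB (show k ∈ {k | (u : Z) ∈ N n k} from hmem)
        omega
      · exact Filter.Eventually.of_forall fun k h => absurd h hu
  obtain ⟨g, hg⟩ := diag P hP
  refine ⟨g, ⟨fun a ha => ?_, fun a b => hg (.inl (.inr (a, b)))⟩, fun u hu hok => ?_⟩
  · filter_upwards [hg (.inl (.inl a))] with n hn using hn ha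
  · filter_upwards [hg (.inr ⟨u, hu⟩)] with n hn using hn hok

end Pool.Agent.Helper47.GO
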