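import Pool.Agent.Helper47.GO.A0

set_option autoImplicit false

namespace Pool.Agent.Helper47.GO

open Set Topology Cardinal

theorem exists_xy_star1 (φ : ℕ → ℕ) (n : ℕ) (a b : Cnd) (h : Star φ a b) :
    ∃ a' b', Star φ a' b' ∧ Le a' a ∧ Le b' b ∧ ((n, φ n) ∈ a'.w ∨ (n, φ n) ∈ b'.w) := by
  classical
  obtain ⟨ha, hb, hwa, hwb, hd⟩ := h
  by_cases hn : (n, φ n) ∈ Sp a
  · have hnb : (n, φ n) ∉ Sp b := fun h => hd n ⟨hn, h⟩
    refine ⟨a, ⟨insert (n, φ n) b.w, b.t, b.f⟩, ⟨ha, ⟨hb.1, ?_⟩, hwa, ?_, ?_⟩,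
      ⟨Finset.Subset.refl _, Finset.Subset.refl _, Finset.Subset.refl _⟩,
      ⟨Finset.subset_insert _ _, Finset.Subset.refl _, Finset.Subset.refl _⟩,
      Or.inr (Finset.mem_insert_self _ _)⟩
    · intro j hj hjw
      rcases Finset.mem_insert.1 hjw with h | h
      · exact hnb (Finset.mem_image.2 ⟨j, hj, h⟩)
      · exact hb.2 j hj h
    · intro i hi
      rcases Finset.mem_insert.1 hi with h | h
      · rw [h]
      · exact hwb i h
    · exact hd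
  · refine ⟨⟨insert (n, φ n) a.w, a.t, a.f⟩, b, ⟨⟨ha.1, ?_⟩, hb, ?_, hwb, ?_⟩,
      ⟨Finset.subset_insert _ _, Finset.Subset.refl _, Finset.Subset.refl _⟩,
      ⟨Finset.Subset.refl _, Finset.Subset.refl _, Finset.Subset.refl _⟩,
      Or.inl (Finset.mem_insert_self _ _)⟩
    · intro j hj hjw
      rcases Finset.mem_insert.1 hjw with h | h
      · exact hn (Finset.mem_image.2 ⟨j, hj, h⟩)
      · exact ha.2 j hj h
    · intro i hi
      rcases Finset.mem_insert.1 hi with h | h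
      · rw [h]
      · exact hwa i h
    · exact hd

theorem exists_xy_fresh (i : ℕ × ℕ) (f : Finset ((ℕ × ℕ) × ℕ)) : ∃ l, (i, l) ∉ f := by
  by_contra h
  push Not at h
  have : Set.Infinite (Set.range (fun l : ℕ => (i, l))) :=
    Set.infinite_range_of_injective (fun a b hab => (Prod.mk.inj hab).2)
  apply this
  apply (Finset.finite_toSet f).subset
  rintro _ ⟨l, rfl⟩
  exact h l

theorem exists_xy_star2 (φ : ℕ → ℕ) (i : ℕ × ℕ) (hi : i.2 ≠ φ i.1) (a b : Cnd) (h : Star φ a b) :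
    ∃ a' b', Star φ a' b' ∧ Le a' a ∧ Le b' b ∧ i ∈ Sp a' ∧ i ∈ Sp b' := by
  classical
  obtain ⟨ha, hb, hwa, hwb, hd⟩ := h
  obtain ⟨l, hl⟩ := exists_xy_fresh i a.f
  obtain ⟨m, hm⟩ := exists_xy_fresh i b.f
  refine ⟨⟨a.w, insert (i, l) a.t, a.f⟩, ⟨b.w, insert (i, m) b.t, b.f⟩,
    ⟨⟨?_, ?_⟩, ⟨?_, ?_⟩, hwa, hwb, ?_⟩,
      ⟨Finset.Subset.refl _, Finset.subset_insert _ _, Finset.Subset.refl _⟩,
      ⟨Finset.Subset.refl _, Finset.subset_insert _ _, Finset.Subset.refl _⟩, ?_, ?_⟩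
  · exact Finset.disjoint_insert_left.2 ⟨hl, ha.1⟩
  · intro j hj hjw
    rcases Finset.mem_insert.1 hj with h | h
    · subst h
      exact hi (hwa _ hjw)
    · exact ha.2 j h hjw
  · exact Finset.disjoint_insert_left.2 ⟨hm, hb.1⟩
  · intro j hj hjw
    rcases Finset.mem_insert.1 hj with h | h
    · subst h
      exact hi (hwb _ hjw)
    · exact hb.2 j h hjw
  · rintro n ⟨h1, h2⟩
    simp only [Sp, Finset.image_insert, Finset.mem_insert] at h1 h2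
    rcases h1 with h1 | h1
    · subst h1; exact hi rfl
    rcases h2 with h2 | h2
    · subst h2; exact hi rfl
    exact hd n ⟨h1, h2⟩
  · simp [Sp]
  · simp [Sp]

theorem exists_xy (φ : ℕ → ℕ)
    {ι : Type} [Countable ι] (N : ι → ℕ → ℕ → Set Z) (g : ι → ℕ → ℕ)
    (hg : ∀ i, Nice (N i) (g i)) (X : Set Z) (hX : X.Countable) :
    ∃ x y : Z, (∀ n, (n, φ n) ∈ W x ∪ W y) ∧ (∀ i ∈ W x ∪ W y, i.2 = φ i.1) ∧
      ∀ i, ∀ F : Finset Z, ↑F ⊆ X → (∃ᶠ n in Filter.atTop, ∀ u ∈ F, u ∉ N i n (g i n)) →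
        ∃ᶠ n in Filter.atTop, x ∉ N i n (g i n) ∧ y ∉ N i n (g i n) ∧
          ∀ u ∈ F, u ∉ N i n (g i n) := by
  classical
  have hcF : Countable {F : Finset Z // (↑F : Set Z) ⊆ X} := by
    have h1 : Countable {t : Set Z | t.Finite ∧ t ⊆ X} :=
      (Set.countable_setOf_finite_subset hX).to_subtype
    let e : {F : Finset Z // (↑F : Set Z) ⊆ X} → {t : Set Z | t.Finite ∧ t ⊆ X} :=
      fun F => ⟨↑F.1, F.1.finite_toSet, F.2⟩
    have he : Function.Injective e := by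
      intro F G h
      have := congrArg Subtype.val h
      exact Subtype.ext (Finset.coe_injective this)
    exact he.countable
  let V : Cnd × Cnd → Prop := fun p => Star φ p.1 p.2
  let le : Cnd × Cnd → Cnd × Cnd → Prop := fun p q => Le p.1 q.1 ∧ Le p.2 q.2
  let D : ℕ ⊕ (ℕ × ℕ) ⊕ (ι × {F : Finset Z // (↑F : Set Z) ⊆ X} × ℕ) → Cnd × Cnd → Prop :=
    fun j p => match j with
    | Sum.inl n => (n, φ n) ∈ p.1.w ∨ (n, φ n) ∈ p.2.w
    | Sum.inr (Sum.inl i) => i.2 ≠ φ i.1 → i ∈ Sp p.1 ∧ i ∈ Sp p.2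
    | Sum.inr (Sum.inr (i, F, m)) => (∃ᶠ n in Filter.atTop, ∀ u ∈ F.1, u ∉ N i n (g i n)) →
        ∃ n ≥ m, (∀ u ∈ F.1, u ∉ N i n (g i n)) ∧ Disjoint (C p.1) (N i n (g i n)) ∧
          Disjoint (C p.2) (N i n (g i n))
  have hLr : ∀ a : Cnd, Le a a := fun a =>
    ⟨Finset.Subset.refl _, Finset.Subset.refl _, Finset.Subset.refl _⟩
  have hLt : ∀ a b c : Cnd, Le a b → Le b c → Le a c := fun a b c h1 h2 =>
    ⟨h2.1.trans h1.1, h2.2.1.trans h1.2.1, h2.2.2.trans h1.2.2⟩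
  have hstart : V (⟨∅, ∅, ∅⟩, ⟨∅, ∅, ∅⟩) := by
    refine ⟨⟨by simp, by simp⟩, ⟨by simp, by simp⟩, by simp, by simp, ?_⟩
    intro n h
    simp [Sp] at h
  obtain ⟨s, -, hsV, hsle, hsD⟩ := exists_seq V le (fun a => ⟨hLr _, hLr _⟩)
    (fun a b c h1 h2 => ⟨hLt _ _ _ h1.1 h2.1, hLt _ _ _ h1.2 h2.2⟩) D (by
      intro j p hp
      rcases j with n | i | ⟨i, F, m⟩
      · obtain ⟨a', b', h1, h2, h3, h4⟩ := exists_xy_star1 φ n p.1 p.2 hp
        exact ⟨(a', b'), h1, ⟨h2, h3⟩, h4⟩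
      · by_cases hi : i.2 ≠ φ i.1
        · obtain ⟨a', b', h1, h2, h3, h4⟩ := exists_xy_star2 φ i hi p.1 p.2 hp
          exact ⟨(a', b'), h1, ⟨h2, h3⟩, fun _ => h4⟩
        · exact ⟨p, hp, ⟨hLr _, hLr _⟩, fun h => absurd h hi⟩
      · by_cases hF : ∃ᶠ n in Filter.atTop, ∀ u ∈ F.1, u ∉ N i n (g i n)
        · have h1 := (hg i).2 p.1 p.2
          have h2 := (hF.and_eventually (h1.and (Filter.eventually_ge_atTop m))).exists
          obtain ⟨n, hn1, hn2, hn3⟩ := h2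
          obtain ⟨a', b', h1, h2, h3, h4, h5⟩ := hn2 φ hp
          exact ⟨(a', b'), h1, ⟨h2, h3⟩, fun _ => ⟨n, hn3, hn1, h4, h5⟩⟩
        · exact ⟨p, hp, ⟨hLr _, hLr _⟩, fun h => absurd h hF⟩) _ hstart
  obtain ⟨x, hx1, hx2⟩ := exists_point (fun n => (s n).1) (fun n => (hsV n).1)
    (fun m n h => (hsle m n h).1)
  obtain ⟨y, hy1, hy2⟩ := exists_point (fun n => (s n).2) (fun n => (hsV n).2.1)
    (fun m n h => (hsle m n h).2)
  refine ⟨x, y, ?_, ?_, ?_⟩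
  · intro n
    obtain ⟨k, hk⟩ := hsD (Sum.inl n)
    rcases hk with hk | hk
    · exact Or.inl ((hx1 k).2.2 _ hk)
    · exact Or.inr ((hy1 k).2.2 _ hk)
  · intro i hi
    by_contra hne
    obtain ⟨k, hk⟩ := hsD (Sum.inr (Sum.inl i))
    have hk' := hk hne
    rcases hi with hi | hi
    · exact hx2 i ⟨k, hk'.1⟩ hi
    · exact hy2 i ⟨k, hk'.2⟩ hi
  · intro i F hFX hF
    rw [Filter.frequently_atTop]
    intro m
    obtain ⟨k, hk⟩ := hsD (Sum.inr (Sum.inr (i, ⟨F, hFX⟩, m)))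
    obtain ⟨n, hn, h1, h2, h3⟩ := hk hF
    exact ⟨n, hn, Set.disjoint_left.1 h2 (hx1 k), Set.disjoint_left.1 h3 (hy1 k), h1⟩


end Pool.Agent.Helper47.GO
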