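import Pool.Agent.Helper47.GO.A0

set_option autoImplicit false

namespace Pool.Agent.Helper47.GO

open Set Topology Cardinal

theorem Le_refl_11566 (c : Cnd) : Le c c :=
  ⟨Finset.Subset.refl _, Finset.Subset.refl _, Finset.Subset.refl _⟩

theorem Le_trans_11566 {a b c : Cnd} (h : Le a b) (h' : Le b c) : Le a c :=
  ⟨h'.1.trans h.1, h'.2.1.trans h.2.1, h'.2.2.trans h.2.2⟩

theorem dense1_11566 (c : Cnd) (hc : Val c) (i : ℕ × ℕ) (hi : i ∉ c.w) :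
    ∃ b, Val b ∧ Le b c ∧ b.w = c.w ∧ i ∈ Sp b := by
  classical
  obtain ⟨l, hl⟩ : ∃ l, (i, l) ∉ c.f := by
    by_contra hcon
    push Not at hcon
    have hinj : Function.Injective (fun l : ℕ => ((i, l) : (ℕ × ℕ) × ℕ)) := by
      intro a b h
      exact (Prod.mk.inj h).2
    have hinf : (Set.range (fun l : ℕ => ((i, l) : (ℕ × ℕ) × ℕ))).Infinite :=
      Set.infinite_range_of_injective hinj
    refine hinf (c.f.finite_toSet.subset ?_)
    rintro _ ⟨l, rfl⟩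
    exact hcon l
  refine ⟨⟨c.w, insert (i, l) c.t, c.f⟩, ⟨?_, ?_⟩, ⟨Finset.Subset.refl _, Finset.subset_insert _ _,
    Finset.Subset.refl _⟩, rfl, ?_⟩
  · exact Finset.disjoint_insert_left.2 ⟨hl, hc.1⟩
  · intro j hj
    rcases Finset.mem_insert.1 hj with h | h
    · rw [h]
      exact hi
    · exact hc.2 j h
  · exact Finset.mem_image.2 ⟨(i, l), Finset.mem_insert_self _ _, rfl⟩

theorem dense3_11566 (c : Cnd) (hc : Val c) (U : Set Z) (hU : IsOpen U) (h : ¬ Disjoint (C c) U) :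
    ∃ b, Val b ∧ Le b c ∧ b.w = c.w ∧ C b ⊆ U := by
  classical
  obtain ⟨z, hz, hzU⟩ := Set.not_disjoint_iff.1 h
  obtain ⟨D, u, hDu, hsub⟩ := isOpen_pi_iff.1 hU z hzU
  obtain ⟨hz1, hz2, hz3⟩ := hz
  refine ⟨⟨c.w, c.t ∪ D.filter (fun j => z j = true), c.f ∪ D.filter (fun j => z j = false)⟩,
    ⟨?_, ?_⟩, ⟨Finset.Subset.refl _, Finset.subset_union_left, Finset.subset_union_left⟩, rfl, ?_⟩
  · rw [Finset.disjoint_left]
    intro j hj hj'
    have h1 : z j = true := by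
      rcases Finset.mem_union.1 hj with h | h
      · exact hz1 j h
      · exact (Finset.mem_filter.1 h).2
    have h2 : z j = false := by
      rcases Finset.mem_union.1 hj' with h | h
      · exact hz2 j h
      · exact (Finset.mem_filter.1 h).2
    rw [h1] at h2
    exact Bool.noConfusion h2
  · intro j hj
    rcases Finset.mem_union.1 hj with h | h
    · exact hc.2 j h
    · intro hw
      have h1 := hz3 j.1 hw j.2
      have h2 := (Finset.mem_filter.1 h).2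
      rw [Prod.mk.eta, h2] at h1
      exact Bool.noConfusion h1
  · rintro z' ⟨h1, h2, -⟩
    apply hsub
    intro j hj
    have h3 : z' j = z j := by
      cases hzj : z j with
      | true => exact h1 j (Finset.mem_union_right _ (Finset.mem_filter.2 ⟨hj, hzj⟩))
      | false => exact h2 j (Finset.mem_union_right _ (Finset.mem_filter.2 ⟨hj, hzj⟩))
    rw [h3]
    exact (hDu j hj).2

theorem exists_z (N₀ : ℕ → ℕ → Set Z) (hN₀ : ∀ n k, IsOpen (N₀ n k))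
    {ι : Type} [Countable ι] (N : ι → ℕ → ℕ → Set Z) (g : ι → ℕ → ℕ)
    (hg : ∀ i, Nice (N i) (g i)) (X : Set Z) (hX : X.Countable) :
    ∃ z : Z, (W z).Finite ∧ (¬ Tame N₀ → ¬ OK N₀ z) ∧
      ∀ i, ∀ F : Finset Z, ↑F ⊆ X → (∃ᶠ n in Filter.atTop, ∀ u ∈ F, u ∉ N i n (g i n)) →
        ∃ᶠ n in Filter.atTop, z ∉ N i n (g i n) ∧ ∀ u ∈ F, u ∉ N i n (g i n) := by
  classical
  obtain ⟨c₀, n₀, hc₀, hnt⟩ : ∃ (c₀ : Cnd) (n₀ : ℕ), Val c₀ ∧ (¬ Tame N₀ → ∀ c', Val c' → Le c' c₀ →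
      c'.w = c₀.w → ∀ j, ∃ k ≥ j, ¬ Disjoint (C c') (N₀ n₀ k)) := by
    by_cases hT : Tame N₀
    · refine ⟨⟨∅, ∅, ∅⟩, 0, ⟨Finset.disjoint_empty_left _, fun j hj => ?_⟩, fun h => (h hT).elim⟩
      exact (Finset.notMem_empty _ hj).elim
    · have hT' := hT
      unfold Tame at hT'
      push Not at hT'
      obtain ⟨n, c, hc, h⟩ := hT'
      exact ⟨c, n, hc, fun _ c' h1 h2 h3 j => h c' h1 h2 h3 j⟩
  haveI hcount : Countable {F : Finset Z // (F : Set Z) ⊆ X} := by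
    have h1 := Set.countable_setOf_finite_subset hX
    haveI := h1.to_subtype
    refine Function.Injective.countable (f := fun F : {F : Finset Z // (F : Set Z) ⊆ X} =>
      (⟨(F.1 : Set Z), F.1.finite_toSet, F.2⟩ : {t : Set Z | t.Finite ∧ t ⊆ X})) ?_
    intro F F' h
    apply Subtype.ext
    apply Finset.coe_injective
    exact congrArg Subtype.val h
  obtain ⟨D, hD⟩ : ∃ D : (ℕ × ℕ) ⊕ ((ι × {F : Finset Z // (F : Set Z) ⊆ X} × ℕ) ⊕ ℕ) → Cnd → Prop,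
    D = fun p c => match p with
      | Sum.inl i => i ∉ c₀.w → i ∈ Sp c
      | Sum.inr (Sum.inl (i, F, m)) => (∃ᶠ n in Filter.atTop, ∀ u ∈ F.1, u ∉ N i n (g i n)) →
          ∃ n ≥ m, (∀ u ∈ F.1, u ∉ N i n (g i n)) ∧ Disjoint (C c) (N i n (g i n))
      | Sum.inr (Sum.inr j) => ¬ Tame N₀ → ∃ k ≥ j, C c ⊆ N₀ n₀ k := ⟨_, rfl⟩
  have hDd : ∀ i a, (Val a ∧ a.w = c₀.w ∧ Le a c₀) →
      ∃ b, (Val b ∧ b.w = c₀.w ∧ Le b c₀) ∧ Le b a ∧ D i b := by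
    intro p c hc
    obtain ⟨h1, h2, h3⟩ := hc
    rw [hD]
    rcases p with i | ⟨i, F, m⟩ | j
    · by_cases hi : i ∉ c₀.w
      · obtain ⟨b, g1, g2, g3, g4⟩ := dense1_11566 c h1 i (by rw [h2]; exact hi)
        exact ⟨b, ⟨g1, g3.trans h2, Le_trans_11566 g2 h3⟩, g2, fun _ => g4⟩
      · exact ⟨c, ⟨h1, h2, h3⟩, Le_refl_11566 c, fun h => (hi h).elim⟩
    · by_cases hf : ∃ᶠ n in Filter.atTop, ∀ u ∈ F.1, u ∉ N i n (g i n)
      · obtain ⟨n, hn, g0, b, g1, g2, g3, g4⟩ :=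
          Filter.frequently_atTop.1 (hf.and_eventually ((hg i).1 c h1)) m
        exact ⟨b, ⟨g1, g3.trans h2, Le_trans_11566 g2 h3⟩, g2, fun _ => ⟨n, hn, g0, g4⟩⟩
      · exact ⟨c, ⟨h1, h2, h3⟩, Le_refl_11566 c, fun h => (hf h).elim⟩
    · by_cases hT : ¬ Tame N₀
      · obtain ⟨k, hk, g0⟩ := hnt hT c h1 h3 h2 j
        obtain ⟨b, g1, g2, g3, g4⟩ := dense3_11566 c h1 _ (hN₀ n₀ k) g0
        exact ⟨b, ⟨g1, g3.trans h2, Le_trans_11566 g2 h3⟩, g2, fun _ => ⟨k, hk, g4⟩⟩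
      · exact ⟨c, ⟨h1, h2, h3⟩, Le_refl_11566 c, fun h => (hT h).elim⟩
  obtain ⟨s, hs0, hsV, hsle, hsD⟩ := exists_seq (fun a => Val a ∧ a.w = c₀.w ∧ Le a c₀) Le
    Le_refl_11566 (fun a b c h h' => Le_trans_11566 h h') D hDd c₀ ⟨hc₀, rfl, Le_refl_11566 c₀⟩
  obtain ⟨z, hz1, hz2⟩ := exists_point s (fun n => (hsV n).1) hsle
  refine ⟨z, ?_, ?_, ?_⟩
  · refine c₀.w.finite_toSet.subset fun i hi => ?_
    by_contra hcon
    obtain ⟨n, hn⟩ := hsD (Sum.inl i)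
    rw [hD] at hn
    exact hz2 i ⟨n, hn hcon⟩ hi
  · intro hT hOK
    obtain ⟨M, hM⟩ := (hOK n₀).bddAbove
    obtain ⟨n, hn⟩ := hsD (Sum.inr (Sum.inr (M + 1)))
    rw [hD] at hn
    obtain ⟨k, hk, hsub⟩ := hn hT
    have h1 := hM (show k ∈ {k | z ∈ N₀ n₀ k} from hsub (hz1 n))
    omega
  · intro i F hF hfr
    refine Filter.frequently_atTop.2 fun m => ?_
    obtain ⟨n', hn'⟩ := hsD (Sum.inr (Sum.inl (i, ⟨F, hF⟩, m)))
    rw [hD] at hn'
    obtain ⟨n, hn, h1, h2⟩ := hn' hfr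
    exact ⟨n, hn, Set.disjoint_left.1 h2 (hz1 n'), h1⟩



end Pool.Agent.Helper47.GO
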