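import Mathlib

set_option autoImplicit false

namespace Pool.Agent.Helper47.GO

open Set Topology Cardinal

/-- the well-ordered set of all countable ordinals -/
abbrev Om : Type := (ℵ₁ : Cardinal.{0}).ord.ToType

/-- the Cantor cube -/
abbrev Z := (ℕ × ℕ) × ℕ → Bool

/-- the coordinates at which `z` vanishes identically -/
def W (z : Z) : Set (ℕ × ℕ) := {i | ∀ l, z (i, l) = false}

/-- Conditions: `w` = promised zero rows, `t` = places with value `true`,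
`f` = places with value `false`. -/
@[ext] structure Cnd where
  w : Finset (ℕ × ℕ)
  t : Finset ((ℕ × ℕ) × ℕ)
  f : Finset ((ℕ × ℕ) × ℕ)

/-- the condition is consistent -/
def Val (c : Cnd) : Prop := Disjoint c.t c.f ∧ ∀ j ∈ c.t, j.1 ∉ c.w

/-- `Le a' a`: `a'` is stronger than `a` -/
def Le (a' a : Cnd) : Prop := a.w ⊆ a'.w ∧ a.t ⊆ a'.t ∧ a.f ⊆ a'.f

/-- the closed set given by a condition -/
def C (c : Cnd) : Set Z :=
  {z | (∀ j ∈ c.t, z j = true) ∧ (∀ j ∈ c.f, z j = false) ∧ ∀ i ∈ c.w, i ∈ W z}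

/-- the rows at which there is a value `true` -/
def Sp (c : Cnd) : Finset (ℕ × ℕ) := c.t.image Prod.fst

/-- A sequence of sequences of open sets is tame. -/
def Tame (N : ℕ → ℕ → Set Z) : Prop :=
  ∀ n c, Val c → ∃ c', Val c' ∧ Le c' c ∧ c'.w = c.w ∧ ∃ j, ∀ k ≥ j, Disjoint (C c') (N n k)

/-- admissible pairs of conditions for `φ` -/
def Star (φ : ℕ → ℕ) (a b : Cnd) : Prop :=
  Val a ∧ Val b ∧ (∀ i ∈ a.w, i.2 = φ i.1) ∧ (∀ i ∈ b.w, i.2 = φ i.1) ∧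
    ∀ n, ¬ ((n, φ n) ∈ Sp a ∧ (n, φ n) ∈ Sp b)

/-- one step for a single condition -/
def St1 (N : Set Z) (a : Cnd) : Prop :=
  ∃ a', Val a' ∧ Le a' a ∧ a'.w = a.w ∧ Disjoint (C a') N

/-- one step for pairs -/
def St2 (N : Set Z) (a b : Cnd) : Prop :=
  ∀ φ, Star φ a b → ∃ a' b', Star φ a' b' ∧ Le a' a ∧ Le b' b ∧
    Disjoint (C a') N ∧ Disjoint (C b') N

/-- the promise `(N, g)` can be kept -/
def Nice (N : ℕ → ℕ → Set Z) (g : ℕ → ℕ) : Prop :=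
  (∀ a, Val a → ∀ᶠ n in Filter.atTop, St1 (N n (g n)) a) ∧
  ∀ a b, ∀ᶠ n in Filter.atTop, St2 (N n (g n)) a b

/-- `N` is point-finite at `z` -/
def OK (N : ℕ → ℕ → Set Z) (z : Z) : Prop := ∀ n, {k | z ∈ N n k}.Finite

/-- data of a step of the construction: three points and a function -/
structure Dt where
  x : Z
  y : Z
  z : Z
  g : ℕ → ℕ

/-- the set of points of `d` -/
def Dt.pts (d : Dt) : Set Z := {d.x, d.y, d.z}

/-- what a step has to do -/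
def Step (φ : Om → ℕ → ℕ) (N : Om → ℕ → ℕ → Set Z) (α : Om) (G : Iio α → Dt) (d : Dt) : Prop :=
  (∀ n, (n, φ α n) ∈ W d.x ∪ W d.y) ∧
  (∀ u ∈ d.pts, ∀ n, {k | (n, k) ∈ W u}.Finite) ∧
  (∀ δ : Iio α, Nice (N δ) (G δ).g → ∀ F : Finset Z, (↑F ⊆ ⋃ β, (G β).pts) →
    (∃ᶠ n in Filter.atTop, ∀ u ∈ F, u ∉ N δ n ((G δ).g n)) →
    ∃ᶠ n in Filter.atTop, ∀ u ∈ (↑F : Set Z) ∪ d.pts, u ∉ N δ n ((G δ).g n)) ∧
  (¬ Tame (N α) → ¬ OK (N α) d.z) ∧
  (Tame (N α) → Nice (N α) d.g ∧ ∀ u ∈ (⋃ β, (G β).pts) ∪ d.pts, OK (N α) u →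
    ∀ᶠ n in Filter.atTop, u ∉ N α n (d.g n))

end Pool.Agent.Helper47.GO
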