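import Pool.Agent.Helper47.GO.Defs

set_option autoImplicit false

namespace Pool.Agent.Helper47.GO

open Set Topology Cardinal

theorem exists_emb : ∃ e : Z → ℝ, Continuous e ∧ Function.Injective e ∧ ∀ z, Irrational (e z) := by
  have hQ : (Set.range ((↑) : ℚ → ℝ)).Countable := Set.countable_range _
  have hQ0 : MeasureTheory.volume (Set.range ((↑) : ℚ → ℝ)) = 0 := hQ.measure_zero _
  obtain ⟨U, hU1, hU2, hU3⟩ := (Set.range ((↑) : ℚ → ℝ)).exists_isOpen_lt_of_lt
    (μ := MeasureTheory.volume) 1 (by rw [hQ0]; exact zero_lt_one)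
  have hK : IsClosed (Icc (0 : ℝ) 1 \ U) := isClosed_Icc.sdiff hU2
  have hKn : ¬ (Icc (0 : ℝ) 1 \ U).Countable := by
    intro hc
    have h0 : MeasureTheory.volume (Icc (0 : ℝ) 1 \ U) = 0 := hc.measure_zero _
    have h1 : MeasureTheory.volume (Icc (0 : ℝ) 1) ≤
        MeasureTheory.volume (Icc (0 : ℝ) 1 \ U) + MeasureTheory.volume U := by
      calc MeasureTheory.volume (Icc (0 : ℝ) 1) ≤ MeasureTheory.volume ((Icc (0 : ℝ) 1 \ U) ∪ U) := by
            apply MeasureTheory.measure_mono
            intro x hx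
            by_cases h : x ∈ U
            · exact Or.inr h
            · exact Or.inl ⟨hx, h⟩
        _ ≤ _ := MeasureTheory.measure_union_le _ _
    rw [h0, zero_add, Real.volume_Icc] at h1
    have : ENNReal.ofReal (1 - 0) = 1 := by simp
    rw [this] at h1
    exact absurd hU3 (not_lt.2 h1)
  obtain ⟨f, hf1, hf2, hf3⟩ := hK.exists_nat_bool_injection_of_not_countable hKn
  let e0 : ((ℕ × ℕ) × ℕ) ≃ ℕ := Denumerable.eqv _
  refine ⟨fun z => f (fun n => z (e0.symm n)), ?_, ?_, ?_⟩
  · exact hf2.comp (continuous_pi fun n => continuous_apply _)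
  · intro z z' h
    have h1 := hf3 h
    funext j
    have := congrFun h1 (e0 j)
    simpa using this
  · intro z hz
    exact (hf1 ⟨fun n => z (e0.symm n), rfl⟩).2 (hU1 hz)


end Pool.Agent.Helper47.GO
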