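import Pool.Agent.Helper47.GO.Defs

set_option autoImplicit false

namespace Pool.Agent.Helper47.GO

open Set Topology Cardinal

theorem exists_surj_of_le_continuum (CH : (ℵ₁ : Cardinal.{0}) = 𝔠) (T : Type) [Nonempty T]
    (hT : #T ≤ 𝔠) : ∃ φ : Om → T, Function.Surjective φ := by
  have h1 : #Om = 𝔠 := by
    rw [← CH]; simp [Om]
  have h2 : #T ≤ #Om := by rw [h1]; exact hT
  obtain ⟨e⟩ := h2
  exact ⟨Function.invFun e, Function.invFun_surjective e.injective⟩

theorem exists_enum (CH : (ℵ₁ : Cardinal.{0}) = 𝔠) : ∃ φ : Om → ℕ → ℕ, Function.Surjective φ := by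
  apply exists_surj_of_le_continuum CH
  simp

theorem exists_enumN (CH : (ℵ₁ : Cardinal.{0}) = 𝔠) : ∃ N : Om → ℕ → ℕ → Set Z,
    (∀ α n k, IsOpen (N α n k)) ∧
      ∀ M : ℕ → ℕ → Set Z, (∀ n k, IsOpen (M n k)) → ∃ α, N α = M := by
  set P := Finset ((ℕ × ℕ) × ℕ) × Finset ((ℕ × ℕ) × ℕ) with hP
  have hcard : #(ℕ → ℕ → Set P) ≤ 𝔠 := by
    have h1 : #(Set P) ≤ 𝔠 := by
      rw [Cardinal.mk_set]
      have : #P ≤ ℵ₀ := Cardinal.mk_le_aleph0
      calc (2 : Cardinal) ^ #P ≤ 2 ^ ℵ₀ := Cardinal.power_le_power_left two_ne_zero this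
        _ = 𝔠 := Cardinal.two_power_aleph0
    have h2 : #(ℕ → Set P) ≤ 𝔠 := by
      rw [← Cardinal.power_def]
      calc #(Set P) ^ #ℕ ≤ 𝔠 ^ #ℕ := Cardinal.power_le_power_right h1
        _ = 𝔠 := by simp
    rw [← Cardinal.power_def]
    calc #(ℕ → Set P) ^ #ℕ ≤ 𝔠 ^ #ℕ := Cardinal.power_le_power_right h2
      _ = 𝔠 := by simp
  obtain ⟨c, hc⟩ := exists_surj_of_le_continuum CH (ℕ → ℕ → Set P) hcard
  have hB : ∀ p : P, IsOpen {z : Z | (∀ j ∈ p.1, z j = true) ∧ ∀ j ∈ p.2, z j = false} := by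
    intro p
    have h1 : IsOpen {z : Z | ∀ j ∈ p.1, z j = true} := by
      have : {z : Z | ∀ j ∈ p.1, z j = true} = ⋂ j ∈ p.1, (fun z : Z => z j) ⁻¹' {true} := by
        ext z; simp
      rw [this]
      exact isOpen_biInter_finset fun j _ => (isOpen_discrete _).preimage (continuous_apply j)
    have h2 : IsOpen {z : Z | ∀ j ∈ p.2, z j = false} := by
      have : {z : Z | ∀ j ∈ p.2, z j = false} = ⋂ j ∈ p.2, (fun z : Z => z j) ⁻¹' {false} := by
        ext z; simp
      rw [this]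
      exact isOpen_biInter_finset fun j _ => (isOpen_discrete _).preimage (continuous_apply j)
    exact h1.inter h2
  refine ⟨fun α n k => ⋃ p ∈ c α n k,
    {z : Z | (∀ j ∈ p.1, z j = true) ∧ ∀ j ∈ p.2, z j = false}, ?_, ?_⟩
  · intro α n k
    exact isOpen_biUnion fun p _ => hB p
  · intro M hM
    obtain ⟨α, hα⟩ := hc (fun n k => {p : P |
      {z : Z | (∀ j ∈ p.1, z j = true) ∧ ∀ j ∈ p.2, z j = false} ⊆ M n k})
    refine ⟨α, ?_⟩
    funext n k
    simp only [hα]
    apply Set.Subset.antisymm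
    · intro z hz
      simp only [Set.mem_iUnion] at hz
      obtain ⟨p, hp, hz⟩ := hz
      exact hp hz
    · intro z hz
      obtain ⟨I, u, hu, hIu⟩ := isOpen_pi_iff.mp (hM n k) z hz
      simp only [Set.mem_iUnion]
      refine ⟨(I.filter (fun j => z j = true), I.filter (fun j => z j = false)), ?_, ?_⟩
      · intro y hy
        apply hIu
        intro j hj
        have hzj := (hu j hj).2
        have : y j = z j := by
          cases hzz : z j with
          | true => exact hy.1 j (by simp [Finset.mem_filter]; exact ⟨hj, hzz⟩)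
          | false => exact hy.2 j (by simp [Finset.mem_filter]; exact ⟨hj, hzz⟩)
        rw [this]; exact hzj
      · constructor
        · intro j hj; exact (Finset.mem_filter.mp hj).2
        · intro j hj; exact (Finset.mem_filter.mp hj).2



end Pool.Agent.Helper47.GO
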