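import Pool.Agent.Helper47.GO.Emb

set_option autoImplicit false

namespace Pool.Agent.Helper47.GO

open Set Topology Cardinal

theorem transfer_part1 (X : Set Z) (e : Z → ℝ) (he : Continuous e)
    (h3 : ∀ N : ℕ → ℕ → Set Z, (∀ n k, IsOpen (N n k)) → (∀ x ∈ X, OK N x) →
      ∃ g : ℕ → ℕ, ∀ F : Finset Z, ↑F ⊆ X → ∃ᶠ n in Filter.atTop, ∀ u ∈ F, u ∉ N n (g n))
    (A : ℕ → Set C(↥(e '' X), ℝ))
    (hA : ∀ n, (A n).Infinite ∧ (0 : C(↥(e '' X), ℝ)) ∉ A n ∧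
        ∀ F : Finset ↥(e '' X), ∀ ε : ℝ, 0 < ε →
          {f ∈ A n | ¬ ∀ x ∈ F, |f x| < ε}.Finite) :
    ∃ f : ℕ → C(↥(e '' X), ℝ), (∀ n, f n ∈ A n) ∧
        ∀ F : Finset ↥(e '' X), ∀ ε : ℝ, 0 < ε → ∃ n, ∀ x ∈ F, |f n x| < ε := by
  classical
  have ha0 : ∀ n, ∃ a : ℕ → C(↥(e '' X), ℝ), Function.Injective a ∧ ∀ k, a k ∈ A n := by
    intro n
    refine ⟨fun k => ((hA n).1.natEmbedding _ k : C(↥(e '' X), ℝ)), ?_, ?_⟩
    · intro i j hij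
      exact ((hA n).1.natEmbedding _).injective (Subtype.ext hij)
    · intro k
      exact ((hA n).1.natEmbedding _ k).2
  choose a hainj haA using ha0
  have hV0 : ∀ n k : ℕ, ∃ V : Set ℝ, IsOpen V ∧ ∀ x : ↥(e '' X),
      (x : ℝ) ∈ V ↔ 1 / ((n : ℝ) + 1) < |a n k x| := by
    intro n k
    have hopen : IsOpen {x : ↥(e '' X) | 1 / ((n : ℝ) + 1) < |a n k x|} :=
      isOpen_lt continuous_const (a n k).continuous.abs
    obtain ⟨V, hV, hVe⟩ := isOpen_induced_iff.1 hopen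
    refine ⟨V, hV, fun x => ?_⟩
    have := Set.ext_iff.1 hVe x
    exact this
  choose V hVo hV using hV0
  have hp0 : ∀ x : ↥(e '' X), ∃ z : Z, z ∈ X ∧ e z = x := fun x => x.2
  choose p hpX hpe using hp0
  have hOK : ∀ z ∈ X, OK (fun n k => e ⁻¹' V n k) z := by
    intro z hz n
    have hfin := (hA n).2.2 {⟨e z, z, hz, rfl⟩} (1 / ((n : ℝ) + 1)) (by positivity)
    refine (hfin.preimage (f := a n) (hainj n).injOn).subset ?_
    intro k hk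
    have hk' : 1 / ((n : ℝ) + 1) < |a n k ⟨e z, z, hz, rfl⟩| := (hV n k ⟨e z, z, hz, rfl⟩).1 hk
    refine ⟨haA n k, ?_⟩
    intro hcon
    exact absurd (hcon ⟨e z, z, hz, rfl⟩ (Finset.mem_singleton_self _)) (not_lt.2 hk'.le)
  obtain ⟨g, hg⟩ := h3 (fun n k => e ⁻¹' V n k) (fun n k => (hVo n k).preimage he) hOK
  refine ⟨fun n => a n (g n), fun n => haA n (g n), ?_⟩
  intro F ε hε
  have h1 := hg (F.image p) (by
    intro z hz
    rw [Finset.coe_image] at hz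
    obtain ⟨x, _, rfl⟩ := hz
    exact hpX x)
  have h2 : ∀ᶠ n : ℕ in Filter.atTop, 1 / ((n : ℝ) + 1) < ε :=
    tendsto_one_div_add_atTop_nhds_zero_nat.eventually_lt_const hε
  obtain ⟨n, hn1, hn2⟩ := (h1.and_eventually h2).exists
  refine ⟨n, fun x hx => ?_⟩
  have h4 := hn1 (p x) (Finset.mem_image_of_mem p hx)
  have h5 : ¬ (x : ℝ) ∈ V n (g n) := by
    intro h6
    apply h4
    show e (p x) ∈ V n (g n)
    rw [hpe]
    exact h6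
  rw [hV] at h5
  exact (not_lt.1 h5).trans_lt hn2

theorem transfer_part2 (X : Set Z) (e : Z → ℝ) (he : Continuous e) (hinj : Function.Injective e)
    (h1 : ∀ φ : ℕ → ℕ, ∃ x ∈ X, ∃ y ∈ X, ∀ n, (n, φ n) ∈ W x ∪ W y)
    (h2 : ∀ x ∈ X, ∀ n, {k | (n, k) ∈ W x}.Finite)
    (hsel : ∀ 𝒰 : ℕ → Set (Set ↥(e '' X)),
      (∀ n, (∀ U ∈ 𝒰 n, IsOpen U) ∧ (𝒰 n).Infinite ∧ Set.univ ∉ 𝒰 n ∧
        ∀ x : ↥(e '' X), {U ∈ 𝒰 n | x ∉ U}.Finite) →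
      ∃ U : ℕ → Set ↥(e '' X), (∀ n, U n ∈ 𝒰 n) ∧
        ∀ F : Finset ↥(e '' X), ∃ n, (↑F : Set ↥(e '' X)) ⊆ U n) : False := by
  classical
  have hp0 : ∀ x : ↥(e '' X), ∃ z : Z, z ∈ X ∧ e z = x := fun x => x.2
  choose p hpX hpe using hp0
  have hKcl : ∀ n k, IsClosed (e '' {z : Z | (n, k) ∈ W z}) := by
    intro n k
    have hcl : IsClosed {z : Z | (n, k) ∈ W z} := by
      have h4 : {z : Z | (n, k) ∈ W z} = ⋂ l : ℕ, {z : Z | z ((n, k), l) = false} := by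
        ext z
        simp [W]
      rw [h4]
      exact isClosed_iInter fun l => isClosed_eq (continuous_apply _) continuous_const
    exact (hcl.isCompact.image he).isClosed
  have hKm : ∀ n k (z : Z), e z ∈ e '' {z : Z | (n, k) ∈ W z} ↔ (n, k) ∈ W z := by
    intro n k z
    exact hinj.mem_set_image
  let U : ℕ → ℕ → Set ↥(e '' X) := fun n k => {x | (x : ℝ) ∉ e '' {z : Z | (n, k) ∈ W z}}
  have hUm : ∀ n k (x : ↥(e '' X)), x ∉ U n k ↔ (n, k) ∈ W (p x) := by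
    intro n k x
    have h4 : x ∉ U n k ↔ (x : ℝ) ∈ e '' {z : Z | (n, k) ∈ W z} := not_not
    rw [h4, ← hpe x, hKm]
  have hmiss : ∀ n k, ∃ x : ↥(e '' X), x ∉ U n k := by
    intro n k
    obtain ⟨x, hx, y, hy, hxy⟩ := h1 (fun _ => k)
    rcases hxy n with h | h
    · refine ⟨⟨e x, x, hx, rfl⟩, ?_⟩
      show ¬ ¬ (e x ∈ e '' {z : Z | (n, k) ∈ W z})
      rw [not_not, hKm]
      exact h
    · refine ⟨⟨e y, y, hy, rfl⟩, ?_⟩
      show ¬ ¬ (e y ∈ e '' {z : Z | (n, k) ∈ W z})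
      rw [not_not, hKm]
      exact h
  have hall : ∀ n, (∀ V ∈ Set.range (U n), IsOpen V) ∧ (Set.range (U n)).Infinite ∧
      Set.univ ∉ Set.range (U n) ∧ ∀ x : ↥(e '' X), {V ∈ Set.range (U n) | x ∉ V}.Finite := by
    intro n
    refine ⟨?_, ?_, ?_, ?_⟩
    · rintro _ ⟨k, rfl⟩
      exact (hKcl n k).isOpen_compl.preimage continuous_subtype_val
    · intro hfin
      haveI : Finite ↥(Set.range (U n)) := hfin.to_subtype
      obtain ⟨V, hV⟩ := Finite.exists_infinite_fiber (Set.rangeFactorization (U n))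
      have hVinf : ((Set.rangeFactorization (U n)) ⁻¹' {V}).Infinite := Set.infinite_coe_iff.1 hV
      obtain ⟨k0, hk0⟩ := hVinf.nonempty
      obtain ⟨x, hx⟩ := hmiss n k0
      have hk0' : U n k0 = V.1 := congrArg Subtype.val hk0
      apply hVinf
      refine (h2 (p x) (hpX x) n).subset ?_
      intro k hk
      have hk' : U n k = V.1 := congrArg Subtype.val hk
      show (n, k) ∈ W (p x)
      rw [← hUm, hk', ← hk0']
      exact hx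
    · rintro ⟨k, hk⟩
      obtain ⟨x, hx⟩ := hmiss n k
      apply hx
      rw [hk]
      exact Set.mem_univ x
    · intro x
      refine ((h2 (p x) (hpX x) n).image (U n)).subset ?_
      rintro V ⟨⟨k, rfl⟩, hx⟩
      exact ⟨k, (hUm n k x).1 hx, rfl⟩
  obtain ⟨U', hU', hF⟩ := hsel (fun n => Set.range (U n)) hall
  choose φ hφ using hU'
  obtain ⟨x, hx, y, hy, hxy⟩ := h1 φ
  obtain ⟨n, hn⟩ := hF {⟨e x, x, hx, rfl⟩, ⟨e y, y, hy, rfl⟩}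
  rw [← hφ n] at hn
  rcases hxy n with h | h
  · have h5 : (⟨e x, x, hx, rfl⟩ : ↥(e '' X)) ∈ U n (φ n) := hn (by simp)
    exact h5 ((hKm n (φ n) x).2 h)
  · have h5 : (⟨e y, y, hy, rfl⟩ : ↥(e '' X)) ∈ U n (φ n) := hn (by simp)
    exact h5 ((hKm n (φ n) y).2 h)

theorem transfer (X : Set Z)
    (h1 : ∀ φ : ℕ → ℕ, ∃ x ∈ X, ∃ y ∈ X, ∀ n, (n, φ n) ∈ W x ∪ W y)
    (h2 : ∀ x ∈ X, ∀ n, {k | (n, k) ∈ W x}.Finite)
    (h3 : ∀ N : ℕ → ℕ → Set Z, (∀ n k, IsOpen (N n k)) → (∀ x ∈ X, OK N x) →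
      ∃ g : ℕ → ℕ, ∀ F : Finset Z, ↑F ⊆ X → ∃ᶠ n in Filter.atTop, ∀ u ∈ F, u ∉ N n (g n)) :
    ∃ X : Set ℝ, (∀ x ∈ X, Irrational x) ∧
    (∀ A : ℕ → Set C(X, ℝ),
      (∀ n, (A n).Infinite ∧ (0 : C(X, ℝ)) ∉ A n ∧
        ∀ F : Finset X, ∀ ε : ℝ, 0 < ε →
          {f ∈ A n | ¬ ∀ x ∈ F, |f x| < ε}.Finite) →
      ∃ f : ℕ → C(X, ℝ), (∀ n, f n ∈ A n) ∧
        ∀ F : Finset X, ∀ ε : ℝ, 0 < ε → ∃ n, ∀ x ∈ F, |f n x| < ε) ∧
    ¬ (∀ 𝒰 : ℕ → Set (Set X),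
      (∀ n, (∀ U ∈ 𝒰 n, IsOpen U) ∧ (𝒰 n).Infinite ∧ Set.univ ∉ 𝒰 n ∧
        ∀ x : X, {U ∈ 𝒰 n | x ∉ U}.Finite) →
      ∃ U : ℕ → Set X, (∀ n, U n ∈ 𝒰 n) ∧
        ∀ F : Finset X, ∃ n, (↑F : Set X) ⊆ U n) := by
  obtain ⟨e, he, hinj, hirr⟩ := exists_emb
  refine ⟨e '' X, ?_, ?_, ?_⟩
  · rintro _ ⟨z, _, rfl⟩
    exact hirr z
  · intro A hA
    exact transfer_part1 X e he h3 A hA
  · intro hsel
    exact transfer_part2 X e he hinj h1 h2 hsel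



end Pool.Agent.Helper47.GO
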