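import Pool.Agent.Helper47.GO.XX
import Pool.Agent.Helper47.GO.Tr

set_option autoImplicit false

namespace Pool.Agent.Helper47.GO

open Set Topology Cardinal

theorem main (CH : Cardinal.aleph 1 = Cardinal.continuum.{0}) :
    ∃ X : Set ℝ, (∀ x ∈ X, Irrational x) ∧
    (∀ A : ℕ → Set C(X, ℝ),
      (∀ n, (A n).Infinite ∧ (0 : C(X, ℝ)) ∉ A n ∧
        ∀ F : Finset X, ∀ ε : ℝ, 0 < ε →
          {f ∈ A n | ¬ ∀ x ∈ F, |f x| < ε}.Finite) →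
      ∃ f : ℕ → C(X, ℝ), (∀ n, f n ∈ A n) ∧
        ∀ F : Finset X, ∀ ε : ℝ, 0 < ε → ∃ n, ∀ x ∈ F, |f n x| < ε) ∧
    ¬ (∀ 𝒰 : ℕ → Set (Set X),
      (∀ n, (∀ U ∈ 𝒰 n, IsOpen U) ∧ (𝒰 n).Infinite ∧ Set.univ ∉ 𝒰 n ∧
        ∀ x : X, {U ∈ 𝒰 n | x ∉ U}.Finite) →
      ∃ U : ℕ → Set X, (∀ n, U n ∈ 𝒰 n) ∧
        ∀ F : Finset X, ∃ n, (↑F : Set X) ⊆ U n) := by
  obtain ⟨X, h1, h2, h3⟩ := exists_X CH
  exact transfer X h1 h2 h3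

end Pool.Agent.Helper47.GO
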