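import Pool.Agent.Helper47.GO.A
import Pool.Agent.Helper47.GO.BZ
import Pool.Agent.Helper47.GO.BXY

set_option autoImplicit false

namespace Pool.Agent.Helper47.GO

open Set Topology Cardinal

theorem exists_step (φ : Om → ℕ → ℕ) (N : Om → ℕ → ℕ → Set Z) (hN : ∀ α n k, IsOpen (N α n k))
    (α : Om) (G : Iio α → Dt) : ∃ d, Step φ N α G d := by
  classical
  have hcI : Countable (Iio α) := (countable_Iio α).to_subtype
  have hcι : Countable {δ : Iio α // Nice (N δ) (G δ).g} := inferInstance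
  set X : Set Z := ⋃ β, (G β).pts with hX
  have hXc : X.Countable := by
    refine countable_iUnion fun β => ?_
    unfold Dt.pts
    exact (Set.toFinite _).countable
  obtain ⟨z, hz1, hz2, hz3⟩ := exists_z (N α) (hN α)
    (ι := {δ : Iio α // Nice (N δ) (G δ).g}) (fun i => N i.1) (fun i => (G i.1).g)
    (fun i => i.2) X hXc
  obtain ⟨x, y, hxy1, hxy2, hxy3⟩ := exists_xy (φ α)
    (ι := {δ : Iio α // Nice (N δ) (G δ).g}) (fun i => N i.1) (fun i => (G i.1).g)
    (fun i => i.2) (X ∪ {z}) (hXc.union (countable_singleton z))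
  have hg : ∃ g : ℕ → ℕ, Tame (N α) → Nice (N α) g ∧ ∀ u ∈ X ∪ {x, y, z}, OK (N α) u →
      ∀ᶠ n in Filter.atTop, u ∉ N α n (g n) := by
    by_cases hT : Tame (N α)
    · obtain ⟨g, hg⟩ := exists_g hT (X ∪ {x, y, z}) (hXc.union (Set.toFinite _).countable)
      exact ⟨g, fun _ => hg⟩
    · exact ⟨fun _ => 0, fun h => absurd h hT⟩
  obtain ⟨g, hg⟩ := hg
  refine ⟨⟨x, y, z, g⟩, hxy1, ?_, ?_, hz2, hg⟩
  · intro u hu n
    have hfin : ∀ v : Z, (∀ i ∈ W v, i.2 = φ α i.1) → {k | (n, k) ∈ W v}.Finite := by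
      intro v hv
      refine (Set.finite_singleton (φ α n)).subset fun k hk => ?_
      exact hv (n, k) hk
    rcases hu with rfl | rfl | rfl
    · exact hfin _ fun i hi => hxy2 i (Or.inl hi)
    · exact hfin _ fun i hi => hxy2 i (Or.inr hi)
    · exact hz1.preimage (fun a _ b _ hab => (Prod.mk.inj hab).2)
  · intro δ hδ F hF hfr
    have h1 := hz3 ⟨δ, hδ⟩ F hF hfr
    have h2 := hxy3 ⟨δ, hδ⟩ (insert z F) (by
      intro u hu
      rw [Finset.coe_insert] at hu
      rcases hu with rfl | hu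
      · exact Or.inr rfl
      · exact Or.inl (hF hu)) (h1.mono fun n hn u hu => by
        rcases Finset.mem_insert.mp hu with rfl | hu
        · exact hn.1
        · exact hn.2 u hu)
    refine h2.mono fun n hn u hu => ?_
    rcases hu with hu | rfl | rfl | rfl
    · exact hn.2.2 u (Finset.mem_insert_of_mem hu)
    · exact hn.1
    · exact hn.2.1
    · exact hn.2.2 _ (Finset.mem_insert_self _ _)


end Pool.Agent.Helper47.GO
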