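import Pool.Agent.Helper47.GO.StepL
import Pool.Agent.Helper47.GO.Enum

set_option autoImplicit false

namespace Pool.Agent.Helper47.GO

open Set Topology Cardinal

/-- the set in the Cantor cube -/
theorem exists_X (CH : (ℵ₁ : Cardinal.{0}) = 𝔠) : ∃ X : Set Z,
    (∀ φ : ℕ → ℕ, ∃ x ∈ X, ∃ y ∈ X, ∀ n, (n, φ n) ∈ W x ∪ W y) ∧
    (∀ x ∈ X, ∀ n, {k | (n, k) ∈ W x}.Finite) ∧
    ∀ N : ℕ → ℕ → Set Z, (∀ n k, IsOpen (N n k)) → (∀ x ∈ X, OK N x) →
      ∃ g : ℕ → ℕ, ∀ F : Finset Z, ↑F ⊆ X → ∃ᶠ n in Filter.atTop, ∀ u ∈ F, u ∉ N n (g n) := by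
  classical
  obtain ⟨φ, hφ⟩ := exists_enum CH
  obtain ⟨N, hN, hNs⟩ := exists_enumN CH
  obtain ⟨F, hF⟩ := exists_rec (fun α G d => Step φ N α G d)
    (fun α G => exists_step φ N hN α G)
  refine ⟨⋃ α, (F α).pts, ?_, ?_, ?_⟩
  · intro ψ
    obtain ⟨α, hα⟩ := hφ ψ
    refine ⟨(F α).x, mem_iUnion.2 ⟨α, by simp [Dt.pts]⟩, (F α).y,
      mem_iUnion.2 ⟨α, by simp [Dt.pts]⟩, fun n => ?_⟩
    rw [← hα]; exact (hF α).1 n
  · intro x hx n
    obtain ⟨α, hα⟩ := mem_iUnion.1 hx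
    exact (hF α).2.1 x hα n
  · intro M hM hOK
    obtain ⟨β, hβ⟩ := hNs M hM
    subst hβ
    have hOK' : ∀ γ, ∀ u ∈ (F γ).pts, OK (N β) u := fun γ u hu =>
      hOK u (mem_iUnion.2 ⟨γ, hu⟩)
    have htame : Tame (N β) := by
      by_contra hT
      exact (hF β).2.2.2.1 hT (hOK' β _ (by simp [Dt.pts]))
    obtain ⟨hNice, hev⟩ := (hF β).2.2.2.2 htame
    have H1 : ∀ u, (∃ γ ≤ β, u ∈ (F γ).pts) →
        ∀ᶠ n in Filter.atTop, u ∉ N β n ((F β).g n) := by
      rintro u ⟨γ, hγ, hu⟩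
      apply hev u _ (hOK' γ u hu)
      rcases hγ.lt_or_eq with h | h
      · exact Or.inl (mem_iUnion.2 ⟨⟨γ, h⟩, hu⟩)
      · subst h; exact Or.inr hu
    have hix : ∀ u : Z, ∃ δ : Om, (∃ γ, u ∈ (F γ).pts) →
        (u ∈ (F δ).pts ∧ ∀ γ < δ, u ∉ (F γ).pts) := by
      intro u
      by_cases h : ∃ γ, u ∈ (F γ).pts
      · refine ⟨wellFounded_lt.min {γ | u ∈ (F γ).pts} h, fun _ =>
          ⟨wellFounded_lt.min_mem {γ | u ∈ (F γ).pts} h, fun γ hγ hu =>
            wellFounded_lt.not_lt_min {γ | u ∈ (F γ).pts} hu hγ⟩⟩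
      · exact ⟨β, fun h' => absurd h' h⟩
    choose ix hix using hix
    refine ⟨(F β).g, ?_⟩
    intro F'
    induction F' using Finset.strongInduction with
    | H F' ih =>
      intro hF'
      by_cases hA : ∀ u ∈ F', ∃ γ ≤ β, u ∈ (F γ).pts
      · exact ((Filter.eventually_all_finset F').2 (fun u hu => H1 u (hA u hu))).frequently
      · push Not at hA
        obtain ⟨u0, hu0, hu0'⟩ := hA
        have hex : ∀ u ∈ F', ∃ γ, u ∈ (F γ).pts := fun u hu => mem_iUnion.1 (hF' hu)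
        obtain ⟨u1, hu1, hmax⟩ := F'.exists_max_image ix ⟨u0, hu0⟩
        have hβδ : β < ix u1 := by
          by_contra hle
          have h1 : ix u0 ≤ β := (hmax u0 hu0).trans (not_lt.1 hle)
          exact hu0' _ h1 (hix u0 (hex u0 hu0)).1
        have hss : F'.filter (fun u => ix u < ix u1) ⊂ F' := by
          rw [Finset.filter_ssubset]
          exact ⟨u1, hu1, lt_irrefl _⟩
        have h2 := ih _ hss (fun u hu => hF' (Finset.filter_subset _ _ hu))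
        have h3 := (hF (ix u1)).2.2.1 ⟨β, hβδ⟩ hNice (F'.filter (fun u => ix u < ix u1)) (by
          intro u hu
          have hu' := Finset.mem_filter.1 (Finset.mem_coe.1 hu)
          exact mem_iUnion.2 ⟨⟨ix u, hu'.2⟩, (hix u (hex u hu'.1)).1⟩) h2
        refine h3.mono (fun n hn u hu => hn u ?_)
        rcases (hmax u hu).lt_or_eq with h | h
        · exact Or.inl (Finset.mem_coe.2 (Finset.mem_filter.2 ⟨hu, h⟩))
        · right
          rw [← h]
          exact (hix u (hex u hu)).1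



end Pool.Agent.Helper47.GO
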